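import Pool.Agent.Q127.KI.Stm

set_option autoImplicit false

/-!
Project KI (MP_a24f0f_an), job APP: all blocks occur in all the sequences of the subshift.
-/

open Pool.Agent.Q127.KI

namespace Pool.Agent.Q39.KI_APP

/-- JOB APP. -/
theorem app (h : S_sub) : S_app := by
  intro w hw k s
  have h1 : w ∈ Sk (k + 1) := Set.mem_iInter.1 hw (k + 1)
  obtain ⟨r, hr⟩ := h1
  obtain ⟨s', hs'⟩ := hr 0
  have h2 := h k w _ s' hs' ((e k s').symm s)
  rw [Equiv.apply_symm_apply] at h2
  exact ⟨_, h2⟩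

end Pool.Agent.Q39.KI_APP
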