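import Pool.Agent.Q16.SQ.Stm3

set_option autoImplicit false

/-!
Project SQ (MP_a03157_co), job TRIK: a triangle with sides `k a`, `k b`, `k c` is dissected into
triangles with sides `a`, `b`, `c`.
-/

open Pool.Agent.Helper549.Tri Q16.SQ

namespace Pool.Agent.Q39.SQ_TRIK

lemma sd_div {a b c x y z k : ℝ} (hk : k ≠ 0) (h : Sd (k * a) (k * b) (k * c) x y z) :
    Sd a b c (x / k) (y / k) (z / k) := by
  unfold Sd at h ⊢
  have e : ∀ t : ℝ, k * t / k = t := fun t => mul_div_cancel_left₀ t hk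
  rcases h with h | h | h | h | h | h <;> obtain ⟨h1, h2, h3⟩ := h <;> subst h1 <;> subst h2 <;>
    subst h3
  · exact Or.inl ⟨e _, e _, e _⟩
  · exact Or.inr (Or.inl ⟨e _, e _, e _⟩)
  · exact Or.inr (Or.inr (Or.inl ⟨e _, e _, e _⟩))
  · exact Or.inr (Or.inr (Or.inr (Or.inl ⟨e _, e _, e _⟩)))
  · exact Or.inr (Or.inr (Or.inr (Or.inr (Or.inl ⟨e _, e _, e _⟩))))
  · exact Or.inr (Or.inr (Or.inr (Or.inr (Or.inr ⟨e _, e _, e _⟩))))

/-- JOB TRIK. -/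
theorem t_TRIK (h : S_KSQ) : S_TRIK := by
  intro a b c k hk A B C hABC hsd
  obtain ⟨P, h1, h2, h3, h4⟩ := h ![A, B, C] hABC k hk
  have hk' : (k : ℝ) ≠ 0 := by exact_mod_cast hk.ne'
  refine ⟨k ^ 2, P, h1, fun i => ?_, h3, h4⟩
  rw [h2 i 1 2, h2 i 0 2, h2 i 0 1]
  exact sd_div hk' hsd

end Pool.Agent.Q39.SQ_TRIK
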