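import Mathlib
import Pool.Agent.Q2.TN.Stm

namespace Q39.TN_F2

open Subgroup Q2.TN

variable {Γ V : Type} [Group Γ] [CommGroup V] [MulDistribMulAction Γ V]

/-- the submonoid of elements mapping `V₁` into itself -/
def St (V₁ : Subgroup V) : Submonoid Γ where
  carrier := {g | ∀ v ∈ V₁, g • v ∈ V₁}
  one_mem' := by
    intro v hv
    rw [one_smul]
    exact hv
  mul_mem' := by
    intro a b ha hb v hv
    rw [mul_smul]
    exact ha _ (hb _ hv)

/-- the action on `V₁` as endomorphisms of an additive group -/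
def act (V₁ : Subgroup V) : (St V₁ : Submonoid Γ) →* AddMonoid.End (Additive V₁) where
  toFun g :=
    { toFun := fun v => Additive.ofMul ⟨(g : Γ) • ((Additive.toMul v : V₁) : V),
        g.2 _ (Additive.toMul v).2⟩
      map_zero' := by
        apply Additive.toMul.injective
        apply Subtype.ext
        simp
      map_add' := by
        intro v w
        apply Additive.toMul.injective
        apply Subtype.ext
        simp }
  map_one' := by
    apply AddMonoidHom.ext
    intro v
    apply Additive.toMul.injective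
    apply Subtype.ext
    exact one_smul _ _
  map_mul' g h := by
    apply AddMonoidHom.ext
    intro v
    apply Additive.toMul.injective
    apply Subtype.ext
    exact mul_smul _ _ _

theorem act_apply (V₁ : Subgroup V) (g : (St V₁ : Submonoid Γ)) (v : V₁) :
    ((Additive.toMul (act V₁ g (Additive.ofMul v)) : V₁) : V) = (g : Γ) • (v : V) := rfl

theorem f2 (h : S_F1) : S_F2 := by
  intro p hp hp2 Γ V _ _ _ Q V₁ z hfin hV hQ hcop hnorm hst hz hquad x hx v hv
  have hzS : z ∈ (St V₁ : Submonoid Γ) := fun v hv => (hz v hv).1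
  have hziS : z⁻¹ ∈ (St V₁ : Submonoid Γ) := fun v hv => (hz v hv).2
  have hQS : ∀ y ∈ Q, y ∈ (St V₁ : Submonoid Γ) := fun y hy v hv => hst y hy v hv
  set Z : (St V₁ : Submonoid Γ) := ⟨z, hzS⟩ with hZ
  set Zi : (St V₁ : Submonoid Γ) := ⟨z⁻¹, hziS⟩ with hZi
  set X : (St V₁ : Submonoid Γ) := ⟨x, hQS x hx⟩ with hX
  set Xi : (St V₁ : Submonoid Γ) := ⟨x⁻¹, hQS x⁻¹ (Q.inv_mem hx)⟩ with hXi
  have hZZi : Z * Zi = 1 := Subtype.ext (by simp [hZ, hZi])
  have hZiZ : Zi * Z = 1 := Subtype.ext (by simp [hZ, hZi])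
  have hXXi : X * Xi = 1 := Subtype.ext (by simp [hX, hXi])
  have hXiX : Xi * X = 1 := Subtype.ext (by simp [hX, hXi])
  have hp0 : (p : AddMonoid.End (Additive V₁)) = 0 := by
    ext w
    have hw := hV _ (Additive.toMul w).2
    simpa using hw
  obtain ⟨n, hn⟩ : ∃ n : AddMonoid.End (Additive V₁), n = act V₁ Z - 1 := ⟨_, rfl⟩
  have h1n : 1 + n = act V₁ Z := by rw [hn]; abel
  have hnn : n * n = 0 := by
    have e1 : ∀ w : Additive V₁, ((Additive.toMul (n w) : V₁) : V)
        = z • ((Additive.toMul w : V₁) : V) / ((Additive.toMul w : V₁) : V) := by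
      intro w
      rw [hn]
      rfl
    apply AddMonoidHom.ext
    intro w
    have hw := hquad _ (Additive.toMul w).2
    apply Additive.toMul.injective
    apply Subtype.ext
    change ((Additive.toMul (n (n w)) : V₁) : V) = 1
    rw [e1, e1, hw, div_self']
  have h1mn : 1 - n = act V₁ Zi := by
    have e1 : (1 - n) * (1 + n) = 1 := by
      have : (1 - n) * (1 + n) = 1 - n * n := by rw [sub_mul, one_mul, mul_add, mul_one]; abel
      rw [this, hnn, sub_zero]
    have e2 : act V₁ Z * act V₁ Zi = 1 := by rw [← map_mul, hZZi, map_one]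
    calc 1 - n = (1 - n) * (act V₁ Z * act V₁ Zi) := by rw [e2, mul_one]
      _ = ((1 - n) * (1 + n)) * act V₁ Zi := by rw [h1n, mul_assoc]
      _ = act V₁ Zi := by rw [e1, one_mul]
  let xu : (AddMonoid.End (Additive V₁))ˣ :=
    ⟨act V₁ X, act V₁ Xi, by rw [← map_mul, hXXi, map_one], by rw [← map_mul, hXiX, map_one]⟩
  have hxm : xu ^ (Nat.card Q) = 1 := by
    apply Units.ext
    rw [Units.val_pow_eq_pow_val, Units.val_one]
    change (act V₁ X) ^ (Nat.card Q) = 1
    rw [← map_pow]
    have : X ^ Nat.card Q = 1 := by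
      apply Subtype.ext
      have hq : (⟨x, hx⟩ : Q) ^ Nat.card Q = 1 := pow_card_eq_one'
      have h5 : (((⟨x, hx⟩ : Q) ^ Nat.card Q : Q) : Γ) = ((1 : Q) : Γ) := by rw [hq]
      rw [Subgroup.coe_pow, Subgroup.coe_one] at h5
      exact h5
    rw [this, map_one]
  have hcom : ∀ y : (St V₁ : Submonoid Γ), (y : Γ) ∈ Q → Commute (act V₁ y) (act V₁ X) := by
    intro y hy
    have : y * X = X * y := Subtype.ext (hQ _ hy _ hx)
    rw [commute_iff_eq, ← map_mul, ← map_mul, this]
  have hres := h (AddMonoid.End (Additive V₁)) p (Nat.card Q) hp hp2 hp0 hcop xu n hnn hxm ?_ ?_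
  · -- conclusion
    have hc : Commute (act V₁ Z) (act V₁ X) := by
      rw [← h1n]
      exact (Commute.one_left _).add_left hres
    rw [commute_iff_eq, ← map_mul, ← map_mul] at hc
    have hv' : z⁻¹ • v ∈ V₁ := (hz v hv).2
    have e := congrArg (fun (T : AddMonoid.End (Additive V₁)) =>
      ((Additive.toMul (T (Additive.ofMul ⟨z⁻¹ • v, hv'⟩)) : V₁) : V)) hc
    have e' : (z * x) • (z⁻¹ • v) = (x * z) • (z⁻¹ • v) := e
    rw [← mul_smul, ← mul_smul] at e'
    rw [e', mul_inv_cancel_right]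
  · rw [h1n, h1mn]
    change Commute (act V₁ Z * act V₁ X * act V₁ Zi) (act V₁ X)
    rw [← map_mul, ← map_mul]
    exact hcom _ (hnorm x hx).1
  · rw [h1n, h1mn]
    change Commute (act V₁ Zi * act V₁ X * act V₁ Z) (act V₁ X)
    rw [← map_mul, ← map_mul]
    exact hcom _ (hnorm x hx).2

end Q39.TN_F2
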