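import Mathlib
import Pool.Agent.Q2.TN.Stm

namespace Q39.TN_G3

open Subgroup Q2.TN

theorem g3 (h4 : S_A4) (h5 : S_A5) (h6 : S_A6) (hc : S_C1) (hg : S_G1) : S_G3 := by
  intro p hp G _ _ P U _ hP hPn hNo hU hQ hM
  have hUn : U.Normal := inferInstance
  have hC : centralizer (U : Set G) ≤ U := hc p hp G U hU hNo hQ
  have hUP : U ≤ P := (h5 p hp G).2.1 U P hUn hU.2.1 hP
  have hmax : ∀ M : Subgroup G, P ≤ M → M = P ∨ M = ⊤ := by
    intro M hPM
    by_cases hMt : M = ⊤
    · exact Or.inr hMt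
    · exact Or.inl (h4 p hp G P M U hP hPM (hM M hPM hMt) hUn hU.2.1 (hUP.trans hPM) hC)
  refine ⟨hC, hUP, hmax, ?_⟩
  have hsur := QuotientGroup.mk'_surjective U
  have hcm : ∀ M : Subgroup G, U ≤ M →
      (M.map (QuotientGroup.mk' U)).comap (QuotientGroup.mk' U) = M := by
    intro M hM
    exact Subgroup.comap_map_eq_self (by rw [QuotientGroup.ker_mk']; exact hM)
  refine hg p hp (G ⧸ U) (P.map (QuotientGroup.mk' U)) ((h6 p hp G P hP).2.1 _ _ hsur) ?_ ?_ ?_ hQ
    ((h5 p hp G).2.2 U hUn hU)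
  · intro h
    have h1 : P ≤ U := by
      have h2 := hcm P hUP
      rw [h, MonoidHom.comap_bot, QuotientGroup.ker_mk'] at h2
      exact h2.ge
    have h3 : P = U := le_antisymm h1 hUP
    exact hPn (h3 ▸ hUn)
  · intro h
    have h2 := hcm P hUP
    rw [h, Subgroup.comap_top] at h2
    apply hPn
    rw [← h2]
    infer_instance
  · intro M hM1
    have h1 : P ≤ M.comap (QuotientGroup.mk' U) := Subgroup.map_le_iff_le_comap.1 hM1
    rcases hmax _ h1 with h2 | h2
    · left
      rw [← h2, Subgroup.map_comap_eq_self_of_surjective hsur]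
    · right
      rw [← Subgroup.map_comap_eq_self_of_surjective hsur M, h2]
      exact Subgroup.map_top_of_surjective _ hsur

end Q39.TN_G3
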