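import Mathlib
import Pool.Agent.Q2.TN.Stm

namespace Q39.TN_M1

open Subgroup Q2.TN

theorem m1 : S_M1 := by
  intro p hp G H _ _ _ _ f hf hG K L hKL
  obtain ⟨hK, hL, hlt, hmax⟩ := hKL
  have hc : IsChief (K.comap f) (L.comap f) := by
    refine ⟨hK.comap f, hL.comap f, ?_, ?_⟩
    · exact (Subgroup.comap_lt_comap_of_surjective hf).2 hlt
    · intro M hM h1 h2
      have hM' : (M.map f).Normal := hM.map f hf
      have hk : f.ker ≤ M := by
        refine le_trans ?_ h1
        intro x hx
        rw [Subgroup.mem_comap, MonoidHom.mem_ker.1 hx]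
        exact K.one_mem
      have e : (M.map f).comap f = M := Subgroup.comap_map_eq_self hk
      have h3 : K ≤ M.map f := by
        have := Subgroup.map_mono (f := f) h1
        rwa [Subgroup.map_comap_eq_self_of_surjective hf] at this
      have h4 : M.map f ≤ L := by
        have := Subgroup.map_mono (f := f) h2
        rwa [Subgroup.map_comap_eq_self_of_surjective hf] at this
      rcases hmax (M.map f) hM' h3 h4 with h | h
      · left; rw [← h, e]
      · right; rw [← h, e]
  have h := hG _ _ hc
  have e : (K.comap f).relIndex (L.comap f) = K.relIndex L := by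
    rw [Subgroup.relIndex_comap, Subgroup.map_comap_eq_self_of_surjective hf]
  rwa [e] at h

end Q39.TN_M1
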