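import Mathlib
import Pool.Agent.Q2.TN.Stm

namespace Q39.TN_M2

open Subgroup Q2.TN

theorem m2 : S_M2 := by
  intro p hp G _ _ D _ hQ hD K H hKH
  obtain ⟨hK, hH, hlt, hmax⟩ := hKH
  have hDn : D.Normal := inferInstance
  have hH1 : (H ⊓ D).Normal := Subgroup.normal_inf_normal H D
  have hK1 : (K ⊓ D).Normal := Subgroup.normal_inf_normal K D
  have hL : (K ⊔ (H ⊓ D)).Normal := Subgroup.sup_normal K (H ⊓ D)
  rcases hmax (K ⊔ (H ⊓ D)) hL le_sup_left (sup_le hlt.le inf_le_left) with h | h
  · -- H ⊓ D ≤ K
    have hHD : H ⊓ D ≤ K := by rw [← h]; exact le_sup_right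
    have key : (K.map (QuotientGroup.mk' D)).comap (QuotientGroup.mk' D) ⊓ H = K := by
      apply le_antisymm
      · intro x hx
        obtain ⟨h1, h2⟩ := Subgroup.mem_inf.1 hx
        obtain ⟨k, hk, hkx⟩ := Subgroup.mem_map.1 (Subgroup.mem_comap.1 h1)
        have h3 : k⁻¹ * x ∈ D := QuotientGroup.eq.1 hkx
        have h4 : k⁻¹ * x ∈ K := hHD (Subgroup.mem_inf.2 ⟨H.mul_mem (H.inv_mem (hlt.le hk)) h2, h3⟩)
        have h5 : k * (k⁻¹ * x) ∈ K := K.mul_mem hk h4
        rwa [mul_inv_cancel_left] at h5
      · exact le_inf (Subgroup.le_comap_map _ _) hlt.le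
    have hc : IsChief (K.map (QuotientGroup.mk' D)) (H.map (QuotientGroup.mk' D)) := by
      refine ⟨hK.map _ (QuotientGroup.mk'_surjective D), hH.map _ (QuotientGroup.mk'_surjective D), ?_, ?_⟩
      · refine lt_of_le_not_ge (Subgroup.map_mono hlt.le) ?_
        intro hle
        apply not_le_of_gt hlt
        rw [← key]
        exact le_inf (Subgroup.map_le_iff_le_comap.1 hle) le_rfl
      · intro M hM h1 h2
        have hM' : (M.comap (QuotientGroup.mk' D) ⊓ H).Normal := by
          have := hM.comap (QuotientGroup.mk' D)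
          exact Subgroup.normal_inf_normal _ _
        have h3 : K ≤ M.comap (QuotientGroup.mk' D) ⊓ H :=
          le_inf (Subgroup.map_le_iff_le_comap.1 h1) hlt.le
        rcases hmax _ hM' h3 inf_le_right with h4 | h4
        · left
          apply le_antisymm _ h1
          intro y hy
          obtain ⟨x, hx, rfl⟩ := Subgroup.mem_map.1 (h2 hy)
          refine Subgroup.mem_map_of_mem _ ?_
          rw [← h4]
          exact Subgroup.mem_inf.2 ⟨Subgroup.mem_comap.2 hy, hx⟩
        · right
          apply le_antisymm h2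
          refine Subgroup.map_le_iff_le_comap.2 ?_
          intro x hx
          rw [← h4] at hx
          exact (Subgroup.mem_inf.1 hx).1
    have hr := hQ _ _ hc
    have e : (K.map (QuotientGroup.mk' D)).relIndex (H.map (QuotientGroup.mk' D)) = K.relIndex H := by
      rw [← Subgroup.relIndex_comap, ← Subgroup.inf_relIndex_right, key]
    rwa [e] at hr
  · have hc : IsChief (K ⊓ D) (H ⊓ D) := by
      refine ⟨hK1, hH1, ?_, ?_⟩
      · refine lt_of_le_not_ge (inf_le_inf_right D hlt.le) ?_
        intro hle
        have h1 : K ⊔ (H ⊓ D) = K := sup_eq_left.2 (le_trans hle inf_le_left)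
        rw [h1] at h
        exact hlt.ne h
      · intro M hM h1 h2
        have hKM : (K ⊔ M).Normal := Subgroup.sup_normal K M
        rcases hmax (K ⊔ M) hKM le_sup_left (sup_le hlt.le (le_trans h2 inf_le_left)) with h3 | h3
        · left
          apply le_antisymm _ h1
          refine le_inf ?_ (le_trans h2 inf_le_right)
          rw [← h3]
          exact le_sup_right
        · right
          apply le_antisymm h2
          intro x hx
          obtain ⟨hxH, hxD⟩ := Subgroup.mem_inf.1 hx
          rw [← h3] at hxH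
          obtain ⟨k, hk, m, hm, rfl⟩ := Subgroup.mem_sup_of_normal_left.1 hxH
          have hkD : k ∈ D := by
            have := D.mul_mem hxD (D.inv_mem (Subgroup.mem_inf.1 (h2 hm)).2)
            rwa [mul_inv_cancel_right] at this
          exact M.mul_mem (h1 (Subgroup.mem_inf.2 ⟨hk, hkD⟩)) hm
    have hr := hD _ _ hc inf_le_right
    have e : (K ⊓ D).relIndex (H ⊓ D) = K.relIndex H := by
      have e1 : K ⊓ D = K ⊓ (H ⊓ D) := by
        rw [← inf_assoc, inf_eq_left.2 hlt.le]
      rw [e1, Subgroup.inf_relIndex_right]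
      conv_rhs => rw [← h, sup_comm]
      rw [Subgroup.relIndex_sup_right]
    rwa [e] at hr

end Q39.TN_M2
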