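import Pool.Agent.Q201.AR.Stm3

set_option autoImplicit false

/-!
Project AR, part 3 (MP_f714b8_lc), job TRN: transport to `ℕ` of a structure described by an
arithmetical Henkin diagram.
-/

open FirstOrder FirstOrder.Language Pool.Agent.Helper227.EN Q201.AR

namespace Pool.Agent.Q39.AR_TRN

section closure

variable {h : ℕ → ℕ} {D : ℕ → Bool}

/-- substitution of the value of an arithmetical function -/
lemma sub (hcl : S_ARCL) (hG : Arith fun q : ℕ × ℕ => h q.1 = q.2) {α : Type} [Primcodable α]
    (k : α → ℕ) (hk : Computable k) (P : α × ℕ → Prop) (hP : Arith P) :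
    Arith fun a => P (a, h (k a)) := by
  obtain ⟨hcomp, _, _, hand, hex⟩ := hcl
  have h1 : Arith fun q : α × ℕ => h (k q.1) = q.2 :=
    hcomp _ _ (fun q : ℕ × ℕ => h q.1 = q.2) (fun q : α × ℕ => (k q.1, q.2))
      ((hk.comp Computable.fst).pair Computable.snd) hG
  have h2 := hex _ _ _ (hand _ _ _ h1 hP)
  refine (congrArg Arith ?_).mp h2
  funext a
  refine propext ⟨?_, fun H => ⟨_, rfl, H⟩⟩
  rintro ⟨b, hb, H⟩
  have hb' : h (k a) = b := hb
  rw [hb']
  exact H

/-- the values of the diagram at a computable position -/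
lemma atp (hcl : S_ARCL) (hc : S_CPT) (hD : Arith fun n => D n = true) {α : Type} [Primcodable α]
    (c : ℕ) (l : α → List ℕ) (hl : Computable l) : Arith fun a => D (pos c (l a)) = true := by
  have hp : Computable fun a => pos c (l a) :=
    hc.2.2.1.comp ((Computable.const c).pair hl)
  exact hcl.1 _ _ (fun n => D n = true) _ hp hD

lemma papp {n : ℕ} (i : Fin n) : Primrec fun v : Fin n → ℕ => v i :=
  Primrec.fin_app.comp Primrec.id (Primrec.const i)

/-- one name -/
lemma one (hcl : S_ARCL) (hc : S_CPT) (hD : Arith fun n => D n = true)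
    (hG : Arith fun q : ℕ × ℕ => h q.1 = q.2) (c : ℕ) :
    Arith fun v : Fin 1 → ℕ => D (pos c [h (v 0)]) = true := by
  have h1 : Arith fun q : (Fin 1 → ℕ) × ℕ => D (pos c [q.2]) = true :=
    atp hcl hc hD c _ (Computable.list_cons.comp Computable.snd (Computable.const []))
  exact sub hcl hG (fun v : Fin 1 → ℕ => v 0) (papp 0).to_comp _ h1

/-- two names -/
lemma two (hcl : S_ARCL) (hc : S_CPT) (hD : Arith fun n => D n = true)
    (hG : Arith fun q : ℕ × ℕ => h q.1 = q.2) (c : ℕ) :
    Arith fun v : Fin 2 → ℕ => D (pos c [h (v 0), h (v 1)]) = true := by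
  have h1 : Arith fun q : ((Fin 2 → ℕ) × ℕ) × ℕ => D (pos c [q.1.2, q.2]) = true :=
    atp hcl hc hD c _ (Computable.list_cons.comp (Computable.snd.comp Computable.fst)
      (Computable.list_cons.comp Computable.snd (Computable.const [])))
  have h2 := sub hcl hG (fun q : (Fin 2 → ℕ) × ℕ => q.1 1)
    ((papp 1).to_comp.comp Computable.fst) _ h1
  exact sub hcl hG (fun v : Fin 2 → ℕ => v 0) (papp 0).to_comp _ h2

/-- three names -/
lemma three (hcl : S_ARCL) (hc : S_CPT) (hD : Arith fun n => D n = true)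
    (hG : Arith fun q : ℕ × ℕ => h q.1 = q.2) (c : ℕ) :
    Arith fun v : Fin 3 → ℕ => D (pos c [h (v 0), h (v 1), h (v 2)]) = true := by
  have h1 : Arith fun q : (((Fin 3 → ℕ) × ℕ) × ℕ) × ℕ =>
      D (pos c [q.1.1.2, q.1.2, q.2]) = true :=
    atp hcl hc hD c _ (Computable.list_cons.comp
      (Computable.snd.comp (Computable.fst.comp Computable.fst))
      (Computable.list_cons.comp (Computable.snd.comp Computable.fst)
      (Computable.list_cons.comp Computable.snd (Computable.const []))))
  have h2 := sub hcl hG (fun q : ((Fin 3 → ℕ) × ℕ) × ℕ => q.1.1 2)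
    ((papp 2).to_comp.comp (Computable.fst.comp Computable.fst)) _ h1
  have h3 := sub hcl hG (fun q : (Fin 3 → ℕ) × ℕ => q.1 1)
    ((papp 1).to_comp.comp Computable.fst) _ h2
  exact sub hcl hG (fun v : Fin 3 → ℕ => v 0) (papp 0).to_comp _ h3

end closure

lemma fn_arith (hcl : S_ARCL) (hc : S_CPT) (D : ℕ → Bool) (N : Type) [LA.Structure N] (g : ℕ → N)
    (h : ℕ → ℕ) (hd : Describes D N g) (hD : Arith fun n => D n = true)
    (hG : Arith fun q : ℕ × ℕ => h q.1 = q.2) (n : ℕ) (f : LA.Functions n) :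
    Arith fun v : Fin (n + 1) → ℕ =>
      Structure.funMap (L := LA) f (fun i : Fin n => g (h (v i.castSucc))) = g (h (v (Fin.last n))) := by
  match n, f with
  | _, AF.zero =>
    have h1 := one hcl hc hD hG (cz 0)
    refine (congrArg Arith ?_).mp h1
    funext v
    rw [hd.2 (cz 0) [h (v 0)], Sat_cz]
    refine congrArg (fun w : Fin 0 → N =>
      (Structure.funMap (L := LA) AF.zero w = g (h (v 0)))) (Subsingleton.elim _ _)
  | _, AF.one =>
    have h1 := one hcl hc hD hG (co 0)
    refine (congrArg Arith ?_).mp h1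
    funext v
    rw [hd.2 (co 0) [h (v 0)], Sat_co]
    refine congrArg (fun w : Fin 0 → N =>
      (Structure.funMap (L := LA) AF.one w = g (h (v 0)))) (Subsingleton.elim _ _)
  | _, AF.add =>
    have h1 := three hcl hc hD hG (cad 0 1 2)
    refine (congrArg Arith ?_).mp h1
    funext v
    rw [hd.2 (cad 0 1 2) [h (v 0), h (v 1), h (v 2)], Sat_cad]
    refine congrArg (fun w : Fin 2 → N =>
      (Structure.funMap (L := LA) AF.add w = g (h (v 2)))) ?_
    funext i
    fin_cases i <;> rfl
  | _, AF.mul =>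
    have h1 := three hcl hc hD hG (cml 0 1 2)
    refine (congrArg Arith ?_).mp h1
    funext v
    rw [hd.2 (cml 0 1 2) [h (v 0), h (v 1), h (v 2)], Sat_cml]
    refine congrArg (fun w : Fin 2 → N =>
      (Structure.funMap (L := LA) AF.mul w = g (h (v 2)))) ?_
    funext i
    fin_cases i <;> rfl

lemma rel_arith (hcl : S_ARCL) (hc : S_CPT) (D : ℕ → Bool) (N : Type) [LA.Structure N] (g : ℕ → N)
    (h : ℕ → ℕ) (hd : Describes D N g) (hD : Arith fun n => D n = true)
    (hG : Arith fun q : ℕ × ℕ => h q.1 = q.2) (n : ℕ) (R : LA.Relations n) :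
    Arith fun v : Fin n → ℕ =>
      Structure.RelMap (L := LA) R (fun i : Fin n => g (h (v i))) := by
  match n, R with
  | _, AR.lt =>
    have h1 := two hcl hc hD hG (clt 0 1)
    refine (congrArg Arith ?_).mp h1
    funext v
    rw [hd.2 (clt 0 1) [h (v 0), h (v 1)], Sat_clt]
    refine congrArg (fun w : Fin 2 → N => (Structure.RelMap (L := LA) AR.lt w)) ?_
    funext i
    fin_cases i <;> rfl

/-- JOB TRN. -/
theorem t_TRN : S_TRN := by
  intro hcl hc D N _ g h hd hD hb hG
  let θ : ℕ ≃ N := Equiv.ofBijective (fun n => g (h n)) hb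
  have hθ : ∀ n, θ n = g (h n) := fun n => rfl
  let e : N ≃ ℕ := θ.symm
  let a : LA.Structure ℕ := _root_.Equiv.inducedStructure (L := LA) e
  have E : @FirstOrder.Language.Equiv LA N ℕ _ a := _root_.Equiv.inducedStructureEquiv e
  refine ⟨a, ⟨@FirstOrder.Language.Equiv.symm LA N ℕ _ a E⟩, ?_, ?_⟩
  · intro n f
    refine (congrArg Arith ?_).mp (fn_arith hcl hc D N g h hd hD hG n f)
    funext v
    refine propext ?_
    have h1 : (Structure.funMap (L := LA) f (fun i : Fin n => g (h (v i.castSucc))) =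
        g (h (v (Fin.last n)))) ↔
        θ.symm (Structure.funMap (L := LA) f (fun i : Fin n => θ (v i.castSucc))) = v (Fin.last n) := by
      rw [Equiv.symm_apply_eq]
      rfl
    exact h1
  · intro n R
    exact rel_arith hcl hc D N g h hd hD hG n R

end Pool.Agent.Q39.AR_TRN
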