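import Pool.Agent.Q127.DJ.Stm

/-! # DJ-MON: monotonicity of the second moments of the conditional expectations -/

set_option autoImplicit false

namespace Pool.Agent.Q39.DJ_MON

open MeasureTheory Filter Topology
open Pool.Agent.Q127.DJ

lemma sed {ι : Type} (s : Finset ι) (α β : ι → ℝ) (hβ : ∀ i ∈ s, 0 ≤ β i)
    (h0 : ∀ i ∈ s, β i = 0 → α i = 0) :
    (∑ i ∈ s, α i) ^ 2 / ∑ i ∈ s, β i ≤ ∑ i ∈ s, α i ^ 2 / β i := by
  classical
  have hz : ∀ i ∈ s, i ∉ s.filter (fun i => 0 < β i) → β i = 0 := by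
    intro i hi hn
    by_contra h
    exact hn (Finset.mem_filter.2 ⟨hi, lt_of_le_of_ne (hβ i hi) (Ne.symm h)⟩)
  have e1 : ∑ i ∈ s.filter (fun i => 0 < β i), α i = ∑ i ∈ s, α i :=
    Finset.sum_subset (Finset.filter_subset _ _) fun i hi hn => h0 i hi (hz i hi hn)
  have e2 : ∑ i ∈ s.filter (fun i => 0 < β i), β i = ∑ i ∈ s, β i :=
    Finset.sum_subset (Finset.filter_subset _ _) fun i hi hn => hz i hi hn
  have e3 : ∑ i ∈ s.filter (fun i => 0 < β i), α i ^ 2 / β i = ∑ i ∈ s, α i ^ 2 / β i :=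
    Finset.sum_subset (Finset.filter_subset _ _) fun i hi hn => by rw [hz i hi hn, div_zero]
  rw [← e1, ← e2, ← e3]
  exact Finset.sq_sum_div_le_sum_sq_div _ _ fun i hi => (Finset.mem_filter.1 hi).2

lemma nm_meas {m : ℕ} (f : ℕ → Fin m) (t : ℕ) : Measurable (nm f t) := by
  refine measurable_pi_iff.2 fun i => ?_
  exact (measurable_from_nat (f := f)).comp (measurable_pi_apply _)

lemma cyl_meas {m : ℕ} (f : ℕ → Fin m) (t : ℕ) (w : Fin t → Fin m) :
    MeasurableSet (cyl f t w) := nm_meas f t (measurableSet_singleton w)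

/-- the second moment of the conditional expectation -/
lemma intE2 (μ : Measure (ℕ → ℕ)) [IsProbabilityMeasure μ] {m : ℕ} (f : ℕ → Fin m) (t : ℕ)
    (ψ : (ℕ → ℕ) → ℝ) : ∫ x, (E μ f t ψ x) ^ 2 ∂μ =
      ∑ w : Fin t → Fin m, (∫ y in cyl f t w, ψ y ∂μ) ^ 2 / μ.real (cyl f t w) := by
  set G : (Fin t → Fin m) → ℝ := fun w => ((∫ y in cyl f t w, ψ y ∂μ) / μ.real (cyl f t w)) ^ 2
    with hG
  have h1 : ∫ x, (E μ f t ψ x) ^ 2 ∂μ = ∫ w, G w ∂(μ.map (nm f t)) := by
    rw [integral_map (nm_meas f t).aemeasurable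
      (measurable_of_finite G).aestronglyMeasurable]
    rfl
  have : IsProbabilityMeasure (μ.map (nm f t)) :=
    Measure.isProbabilityMeasure_map (nm_meas f t).aemeasurable
  rw [h1, integral_fintype (hf := Integrable.of_finite)]
  refine Finset.sum_congr rfl fun w _ => ?_
  have h2 : (μ.map (nm f t)).real {w} = μ.real (cyl f t w) := by
    rw [map_measureReal_apply (nm_meas f t) (measurableSet_singleton w)]
    rfl
  rw [h2, smul_eq_mul, hG]
  by_cases h : μ.real (cyl f t w) = 0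
  · rw [h]; simp
  · field_simp

lemma cyl_cons {m : ℕ} (f : ℕ → Fin m) (t : ℕ) (c : Fin m) (w : Fin t → Fin m) :
    cyl f (t + 1) (Fin.cons c w) = {x | f (x 0) = c} ∩ S ⁻¹' (cyl f t w) := by
  ext x
  change nm f (t + 1) x = Fin.cons c w ↔ f (x 0) = c ∧ nm f t (S x) = w
  constructor
  · intro h
    refine ⟨congrFun h 0, ?_⟩
    funext i
    exact congrFun h i.succ
  · rintro ⟨h1, h2⟩
    funext i
    refine Fin.cases ?_ (fun i => ?_) i
    · exact h1
    · exact congrFun h2 i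

theorem mon (_h1 : S_ce1) : S_mon := by
  intro μ hμ hS m f C φ hφ
  refine monotone_nat_of_le_succ fun t => ?_
  change ∫ x, (E μ f t (fun y => φ (S^[t] y)) x) ^ 2 ∂μ ≤
    ∫ x, (E μ f (t + 1) (fun y => φ (S^[t + 1] y)) x) ^ 2 ∂μ
  rw [intE2, intE2]
  have hSm : ∀ t, Measurable (S^[t]) := fun t => hS.measurable.iterate t
  have hint : ∀ t, Integrable (fun y => φ (S^[t] y)) μ := fun t =>
    Integrable.of_bound (hφ.1.comp (hSm t)).aestronglyMeasurable C
      (Eventually.of_forall fun x => hφ.2 _)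
  have hsum : ∀ F : (Fin (t + 1) → Fin m) → ℝ,
      ∑ w', F w' = ∑ w : Fin t → Fin m, ∑ c : Fin m, F (Fin.cons c w) := by
    intro F
    rw [Finset.sum_comm, ← Fintype.sum_prod_type' (f := fun (c : Fin m) (w : Fin t → Fin m) =>
      F (Fin.cons c w))]
    exact (Fintype.sum_equiv (Fin.consEquiv fun _ => Fin m) _ _ fun p => rfl).symm
  rw [hsum]
  refine Finset.sum_le_sum fun w _ => ?_
  have hdisj : Pairwise (Function.onFun Disjoint fun c : Fin m => cyl f (t + 1) (Fin.cons c w)) := by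
    intro c c' hcc
    rw [Function.onFun, Set.disjoint_left]
    intro x hx hx'
    rw [cyl_cons] at hx hx'
    exact hcc (hx.1.symm.trans hx'.1)
  have hunion : (⋃ c : Fin m, cyl f (t + 1) (Fin.cons c w)) = S ⁻¹' (cyl f t w) := by
    ext x
    simp only [Set.mem_iUnion, cyl_cons, Set.mem_inter_iff]
    constructor
    · rintro ⟨c, _, h⟩
      exact h
    · intro h
      exact ⟨f (x 0), rfl, h⟩
  have e1 : ∑ c : Fin m, ∫ y in cyl f (t + 1) (Fin.cons c w), φ (S^[t + 1] y) ∂μ =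
      ∫ y in cyl f t w, φ (S^[t] y) ∂μ := by
    rw [← integral_iUnion_fintype (fun c => cyl_meas f (t + 1) _) hdisj
      (fun c => (hint (t + 1)).integrableOn), hunion]
    conv_rhs => rw [← hS.map_eq]
    rw [setIntegral_map (f := fun y => φ (S^[t] y)) (cyl_meas f t w)
      (hφ.1.comp (hSm t)).aestronglyMeasurable hS.measurable.aemeasurable]
    rfl
  have e2 : ∑ c : Fin m, μ.real (cyl f (t + 1) (Fin.cons c w)) = μ.real (cyl f t w) := by
    rw [← measureReal_iUnion_fintype hdisj (fun c => cyl_meas f (t + 1) _), hunion]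
    exact hS.measureReal_preimage (cyl_meas f t w).nullMeasurableSet
  rw [← e1, ← e2]
  refine sed _ _ _ (fun c _ => measureReal_nonneg) fun c _ h => ?_
  exact setIntegral_measure_zero _ ((measureReal_eq_zero_iff).1 h)

end Pool.Agent.Q39.DJ_MON
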