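import Mathlib
import Pool.Agent.Q2.TN.Stm

namespace Q39.TN_F1

open Subgroup Q2.TN

theorem f1 : S_F1 := by
  intro R _ p m hp hp2 hR hm x n hn hx h1 h2
  set a : R := n * (x:R) - x * n with ha
  have e : (1 + n) * (x:R) * (1 - n) - (1 - n) * x * (1 + n) = 2 * a := by
    rw [ha]; noncomm_ring
  have h3 : Commute (2 * a) (x : R) := by rw [← e]; exact h1.sub_left h2
  obtain ⟨c, hc⟩ : ∃ c : ℕ, 2 * c = p + 1 := by
    obtain ⟨t, ht⟩ := hp.odd_of_ne_two hp2
    exact ⟨t + 1, by omega⟩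
  have h4 : Commute a (x:R) := by
    have h5 : a = (c:R) * (2 * a) := by
      have h6 : (c:R) * (2 * a) = ((2 * c : ℕ) : R) * a := by
        push_cast
        rw [← mul_assoc, (Nat.cast_commute c (2:R)).eq]
      rw [h6, hc]; push_cast; rw [hR]; simp
    rw [h5]; exact (Nat.cast_commute c (x:R)).mul_left h3
  obtain ⟨d, hd⟩ : ∃ d : R, d = (x:R) * n * ((x⁻¹ : Rˣ) : R) - n := ⟨_, rfl⟩
  have hdx0 : d = -(a * ((x⁻¹ : Rˣ) : R)) := by
    rw [hd, ha, sub_mul, mul_assoc n, Units.mul_inv, mul_one]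
    abel
  have hdx : Commute d (x:R) := by
    rw [hdx0]
    refine Commute.neg_left (h4.mul_left ?_)
    exact (Commute.refl (x:R)).units_inv_left
  have hxn : (x:R) * n = (n + d) * x := by
    rw [hd, add_sub_cancel, mul_assoc, Units.inv_mul, mul_one]
  have hk : ∀ k : ℕ, (x:R)^k * n = (n + k * d) * (x:R)^k := by
    intro k
    induction k with
    | zero => simp
    | succ k ih =>
      rw [pow_succ', mul_assoc, ih, ← mul_assoc, mul_add, hxn, ← mul_assoc (x:R),
        (Nat.cast_commute k (x:R)).symm.eq, mul_assoc (k:R) (x:R) d, ← hdx.eq, ← mul_assoc (k:R) d (x:R),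
        ← add_mul, mul_assoc]
      congr 1
      push_cast
      rw [add_mul, one_mul]
      abel
  have hxm : (x:R)^m = 1 := by
    rw [← Units.val_pow_eq_pow_val, hx, Units.val_one]
  have hmd : (m:R) * d = 0 := by
    have := hk m
    rw [hxm, one_mul, mul_one] at this
    simpa using this
  have hpd : (p:R) * d = 0 := by rw [hR, zero_mul]
  have hd0 : d = 0 := by
    have hb := Nat.gcd_eq_gcd_ab m p
    rw [hm] at hb
    have h7 : ((1:ℕ):ℤ) = 1 := rfl
    rw [h7] at hb
    have h8 : d = ((1:ℤ):R) * d := by simp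
    rw [h8, hb]
    push_cast
    rw [add_mul, (Int.cast_commute (m.gcdA p) (m:R)).symm.eq, (Int.cast_commute (m.gcdB p) (p:R)).symm.eq,
      mul_assoc, mul_assoc, hmd, hpd]
    simp
  have ha0 : a = 0 := by
    have h9 : a * ((x⁻¹ : Rˣ) : R) = 0 := by
      rw [hd0] at hdx0
      exact neg_eq_zero.1 hdx0.symm
    have h10 := congrArg (· * (x:R)) h9
    simpa [mul_assoc] using h10
  rw [ha] at ha0
  exact sub_eq_zero.1 ha0

end Q39.TN_F1
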